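import Pool.Agent.W744.BU.Stm

set_option autoImplicit false

namespace Pool.Agent.W980.BU.SCHUR

open Pool.Agent.W744.BU

section alg

variable {B : Type} [Ring B]

/-- abstract Schur complement argument -/
theorem schur (m11 m12 m21 m22 n11 n12 n21 n22 c T' : B)
    (ha : n11 * m11 + n21 * m21 = 1) (hb : n12 * m11 + n22 * m21 = 0)
    (hc : n11 * m12 + n21 * m22 = 0) (hd : n12 * m12 + n22 * m22 = 1)
    (he : m21 * n11 + m22 * n12 = 0) (hf : m11 * n11 + m12 * n12 = 1)
    (h1 : (m22 + m21 * c) * T' = 1) (h2 : T' * (m22 + m21 * c) = 1) :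
    IsUnit (n11 - c * n12) := by
  have e1 : (n11 - c * n12) * m11 = 1 - (n21 - c * n22) * m21 := by
    have a1 : n11 * m11 = 1 - n21 * m21 := eq_sub_of_add_eq ha
    have a2 : n12 * m11 = - (n22 * m21) := eq_neg_of_add_eq_zero_left hb
    calc (n11 - c * n12) * m11 = n11 * m11 - c * (n12 * m11) := by noncomm_ring
      _ = _ := by rw [a1, a2]; noncomm_ring
  have e2 : (n11 - c * n12) * (m11 * c + m12) = - ((n21 - c * n22) * (m22 + m21 * c)) := by
    have a1 : n11 * m12 = - (n21 * m22) := eq_neg_of_add_eq_zero_left hc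
    have a2 : n12 * m12 = 1 - n22 * m22 := eq_sub_of_add_eq hd
    calc (n11 - c * n12) * (m11 * c + m12)
        = ((n11 - c * n12) * m11) * c + (n11 * m12 - c * (n12 * m12)) := by noncomm_ring
      _ = _ := by rw [e1, a1, a2]; noncomm_ring
  have e3 : m21 * (n11 - c * n12) = - ((m22 + m21 * c) * n12) := by
    have a1 : m21 * n11 = - (m22 * n12) := eq_neg_of_add_eq_zero_left he
    calc m21 * (n11 - c * n12) = m21 * n11 - m21 * c * n12 := by noncomm_ring
      _ = _ := by rw [a1]; noncomm_ring
  have e4 : m11 * (n11 - c * n12) = 1 - (m11 * c + m12) * n12 := by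
    have a1 : m11 * n11 = 1 - m12 * n12 := eq_sub_of_add_eq hf
    calc m11 * (n11 - c * n12) = m11 * n11 - m11 * c * n12 := by noncomm_ring
      _ = _ := by rw [a1]; noncomm_ring
  have r1 : (n11 - c * n12) * (m11 - (m11 * c + m12) * T' * m21) = 1 := by
    calc (n11 - c * n12) * (m11 - (m11 * c + m12) * T' * m21)
        = (n11 - c * n12) * m11 - ((n11 - c * n12) * (m11 * c + m12)) * T' * m21 := by
          noncomm_ring
      _ = 1 - (n21 - c * n22) * m21 + (n21 - c * n22) * ((m22 + m21 * c) * T') * m21 := by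
          rw [e1, e2]; noncomm_ring
      _ = 1 := by rw [h1]; noncomm_ring
  have r2 : (m11 - (m11 * c + m12) * T' * m21) * (n11 - c * n12) = 1 := by
    calc (m11 - (m11 * c + m12) * T' * m21) * (n11 - c * n12)
        = m11 * (n11 - c * n12) - (m11 * c + m12) * T' * (m21 * (n11 - c * n12)) := by
          noncomm_ring
      _ = 1 - (m11 * c + m12) * n12 + (m11 * c + m12) * (T' * (m22 + m21 * c)) * n12 := by
          rw [e3, e4]; noncomm_ring
      _ = 1 := by rw [h2]; noncomm_ring
  exact ⟨⟨_, _, r1, r2⟩, rfl⟩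

theorem main' (y w C S A R c : B) (hyw : y * w = 1) (hwy : w * y = 1)
    (hK : S * C + A * R = 1)
    (hT : IsUnit (1 + (R * (y - 1) * A + R * (y - 1) * S * w * c))) :
    IsUnit (y * (1 + C * (w - 1) * S) - c * (R * (w - 1) * S)) := by
  obtain ⟨u, hu⟩ := hT
  have hDD : (w - 1) + (y - 1) + (w - 1) * (y - 1) = 0 := by
    have : (w - 1) * (y - 1) = w * y - w - y + 1 := by noncomm_ring
    rw [this, hwy]; noncomm_ring
  have hDD' : (y - 1) + (w - 1) + (y - 1) * (w - 1) = 0 := by
    have : (y - 1) * (w - 1) = y * w - y - w + 1 := by noncomm_ring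
    rw [this, hyw]; noncomm_ring
  refine schur ((1 + C * (y - 1) * S) * w) (C * (y - 1) * A) (R * (y - 1) * S * w)
    (1 + R * (y - 1) * A) (y * (1 + C * (w - 1) * S)) (R * (w - 1) * S)
    (y * C * (w - 1) * A) (1 + R * (w - 1) * A) c (↑u⁻¹ : B) ?_ ?_ ?_ ?_ ?_ ?_ ?_ ?_
  · calc y * (1 + C * (w - 1) * S) * ((1 + C * (y - 1) * S) * w) +
        y * C * (w - 1) * A * (R * (y - 1) * S * w)
        = y * w + y * C * ((w - 1) + (y - 1) + (w - 1) * (S * C + A * R) * (y - 1)) * S * w := by
          noncomm_ring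
      _ = 1 := by rw [hK, mul_one, hDD, hyw]; simp
  · calc R * (w - 1) * S * ((1 + C * (y - 1) * S) * w) +
        (1 + R * (w - 1) * A) * (R * (y - 1) * S * w)
        = R * ((w - 1) + (y - 1) + (w - 1) * (S * C + A * R) * (y - 1)) * S * w := by
          noncomm_ring
      _ = 0 := by rw [hK, mul_one, hDD]; simp
  · calc y * (1 + C * (w - 1) * S) * (C * (y - 1) * A) +
        y * C * (w - 1) * A * (1 + R * (y - 1) * A)
        = y * C * ((w - 1) + (y - 1) + (w - 1) * (S * C + A * R) * (y - 1)) * A := by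
          noncomm_ring
      _ = 0 := by rw [hK, mul_one, hDD]; simp
  · calc R * (w - 1) * S * (C * (y - 1) * A) + (1 + R * (w - 1) * A) * (1 + R * (y - 1) * A)
        = 1 + R * ((w - 1) + (y - 1) + (w - 1) * (S * C + A * R) * (y - 1)) * A := by
          noncomm_ring
      _ = 1 := by rw [hK, mul_one, hDD]; simp
  · calc R * (y - 1) * S * w * (y * (1 + C * (w - 1) * S)) +
        (1 + R * (y - 1) * A) * (R * (w - 1) * S)
        = R * (y - 1) * S * (w * y) * (1 + C * (w - 1) * S) +
          (1 + R * (y - 1) * A) * (R * (w - 1) * S) := by noncomm_ring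
      _ = R * ((y - 1) + (w - 1) + (y - 1) * (S * C + A * R) * (w - 1)) * S := by
          rw [hwy]; noncomm_ring
      _ = 0 := by rw [hK, mul_one, hDD']; simp
  · calc (1 + C * (y - 1) * S) * w * (y * (1 + C * (w - 1) * S)) +
        C * (y - 1) * A * (R * (w - 1) * S)
        = (1 + C * (y - 1) * S) * (w * y) * (1 + C * (w - 1) * S) +
          C * (y - 1) * A * (R * (w - 1) * S) := by noncomm_ring
      _ = 1 + C * ((y - 1) + (w - 1) + (y - 1) * (S * C + A * R) * (w - 1)) * S := by
          rw [hwy]; noncomm_ring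
      _ = 1 := by rw [hK, mul_one, hDD']; simp
  · have : (1 + R * (y - 1) * A + R * (y - 1) * S * w * c) = (u : B) := by
      rw [hu]; noncomm_ring
    rw [this]; exact u.mul_inv
  · have : (1 + R * (y - 1) * A + R * (y - 1) * S * w * c) = (u : B) := by
      rw [hu]; noncomm_ring
    rw [this]; exact u.inv_mul

end alg

theorem main : S_SCHUR := by
  intro B _ A C c y hy hK hT
  have h := main' y (star y) C (star C) A (star A) c (Unitary.mul_star_self_of_mem hy)
    (Unitary.star_mul_self_of_mem hy) hK hT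
  have e : tau A C c y = y * (1 + C * (star y - 1) * star C) -
      c * (star A * (star y - 1) * star C) := by
    unfold tau
    simp only [star_mul, star_add, star_sub, star_one, star_star, mul_assoc]
  rw [e]
  exact h

end Pool.Agent.W980.BU.SCHUR
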